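import Pool.Agent.W716.FV.StmA

set_option autoImplicit false

/-! Task FV-CA: chain algebra mod 2 with lists. -/

namespace Pool.Agent.W52.FV.CA

open Pool.Agent.W716.FV

theorem dd_nil {α : Type} (ω : List α → ZMod 2) : dd ω [] = 0 := by
  rw [dd]

theorem dd_cons {α : Type} (ω : List α → ZMod 2) (v : α) (t : List α) :
    dd ω (v :: t) = ω t + dd (fun t' => ω (v :: t')) t := by
  rw [dd]

theorem pr_nil {V : Type} (k : ℕ) (ω : List (V × ℕ) → ZMod 2) : pr k ω [] = 0 := by
  rw [pr]

theorem pr_cons {V : Type} (k : ℕ) (ω : List (V × ℕ) → ZMod 2) (v : V) (t : List V) :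
    pr k ω (v :: t) = ω ((v, k) :: (v, k + 1) :: t.map (fun x => (x, k + 1))) +
      pr k (fun t' => ω ((v, k) :: t')) t := by
  rw [pr]

theorem dd_add {α : Type} (ω ω' : List α → ZMod 2) (l : List α) :
    dd (fun t => ω t + ω' t) l = dd ω l + dd ω' l := by
  induction l generalizing ω ω' with
  | nil => rw [dd_nil, dd_nil, dd_nil, add_zero]
  | cons v t ih =>
    rw [dd_cons, dd_cons, dd_cons, ih (fun t' => ω (v :: t')) (fun t' => ω' (v :: t'))]
    ring

theorem pr_add {V : Type} (k : ℕ) (w w' : List (V × ℕ) → ZMod 2) (l : List V) :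
    pr k (fun t => w t + w' t) l = pr k w l + pr k w' l := by
  induction l generalizing w w' with
  | nil => rw [pr_nil, pr_nil, pr_nil, add_zero]
  | cons v t ih =>
    rw [pr_cons, pr_cons, pr_cons, ih (fun t' => w ((v, k) :: t')) (fun t' => w' ((v, k) :: t'))]
    ring

theorem dd_map {α β : Type} (f : α → β) (ω : List β → ZMod 2) (l : List α) :
    dd ω (l.map f) = dd (fun t => ω (t.map f)) l := by
  induction l generalizing ω with
  | nil => rw [List.map_nil, dd_nil, dd_nil]
  | cons v t ih =>
    rw [List.map_cons, dd_cons, dd_cons, ih]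
    rfl

theorem dd_dd {α : Type} (ω : List α → ZMod 2) (l : List α) : dd (dd ω) l = 0 := by
  induction l generalizing ω with
  | nil => rw [dd_nil]
  | cons v t ih =>
    rw [dd_cons]
    have h : (fun t' => dd ω (v :: t')) =
        fun t' => ω t' + dd (fun t'' => ω (v :: t'')) t' := by
      funext t'
      rw [dd_cons]
    rw [h, dd_add, ih (fun t'' => ω (v :: t'')), add_zero]
    exact CharTwo.add_self_eq_zero _

theorem prism {V : Type} (k : ℕ) (ω : List (V × ℕ) → ZMod 2) (l : List V) :
    pr k (dd ω) l = ω (l.map (fun x => (x, k + 1))) + ω (l.map (fun x => (x, k))) +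
      dd (pr k ω) l := by
  induction l generalizing ω with
  | nil =>
    rw [pr_nil, dd_nil, List.map_nil, List.map_nil, add_zero]
    exact (CharTwo.add_self_eq_zero _).symm
  | cons v t ih =>
    have h1 : (fun t' => dd ω ((v, k) :: t')) =
        fun t' => ω t' + dd (fun t'' => ω ((v, k) :: t'')) t' := by
      funext t'
      rw [dd_cons]
    have h2 : (fun t' => pr k ω (v :: t')) =
        fun t' => ω ((v, k) :: (v, k + 1) :: t'.map (fun x => (x, k + 1))) +
          pr k (fun t'' => ω ((v, k) :: t'')) t' := by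
      funext t'
      rw [pr_cons]
    rw [pr_cons, dd_cons, dd_cons, h1, pr_add, ih (fun t'' => ω ((v, k) :: t'')), dd_cons, h2,
      dd_add, dd_map, List.map_cons, List.map_cons]
    have h3 : ω ((v, k) :: t.map (fun x => (x, k + 1))) +
        ω ((v, k) :: t.map (fun x => (x, k + 1))) = 0 := CharTwo.add_self_eq_zero _
    linear_combination h3

theorem main : ChainAlg :=
  ⟨fun _ ω ω' l => dd_add ω ω' l, fun _ ω l => dd_dd ω l, fun _ k ω l => prism k ω l⟩

end Pool.Agent.W52.FV.CA
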