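import Pool.Agent.W716.FV.StmA

set_option autoImplicit false

/-! Task FV-PM: moments of `(g, κ)`. -/

namespace Pool.Agent.W52.FV.PM

open Pool.Agent.W716.FV MeasureTheory

theorem nu_pow (hKM : KappaMoments) (j : ℕ) (hj : j ≤ 4) :
    Integrable (fun κ : ℝ => |κ| ^ j) nu := by
  obtain ⟨hp, h4, _⟩ := hKM
  refine Integrable.mono' ((integrable_const (1 : ℝ)).add h4)
    (by fun_prop) (Filter.Eventually.of_forall fun κ => ?_)
  have h0 : 0 ≤ |κ| := abs_nonneg κ
  rw [Real.norm_eq_abs, abs_of_nonneg (by positivity)]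
  change |κ| ^ j ≤ 1 + κ ^ 4
  have h2 : κ ^ 4 = |κ| ^ 4 := by
    rw [← abs_pow]
    exact (abs_of_nonneg (by positivity)).symm
  rw [h2]
  rcases le_or_gt |κ| 1 with h | h
  · have := pow_le_one₀ h0 h (n := j)
    have h5 : 0 ≤ |κ| ^ 4 := by positivity
    linarith
  · have := pow_le_pow_right₀ h.le hj
    linarith

theorem main (hKM : KappaMoments) (hGM : GaussMoments) : PMoments := by
  intro n
  have hK := hKM
  obtain ⟨hpn, h4, hk1, hk2, hk3, hk4⟩ := hKM
  obtain ⟨hpg, hg1, hg2, hg3, hg4⟩ := hGM n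
  have hprob : IsProbabilityMeasure (P n) := by
    unfold P
    infer_instance
  have hint : ∀ j k : ℕ, j ≤ 4 →
      Integrable (fun w : E n × ℝ => |w.2| ^ j * ‖w.1‖ ^ k) (P n) := by
    intro j k hj
    have h1 := Integrable.mul_prod (hg1 k) (nu_pow hK j hj)
    refine h1.congr (Filter.Eventually.of_forall fun w => ?_)
    exact mul_comm _ _
  have hmul : ∀ (f : E n → ℝ) (g : ℝ → ℝ), ∫ w, f w.1 * g w.2 ∂(P n) =
      (∫ x, f x ∂(gam n)) * ∫ κ, g κ ∂nu := fun f g => integral_prod_mul f g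
  have hone : ∫ _κ : ℝ, (1 : ℝ) ∂nu = 1 := by simp
  have honeg : ∫ _x : E n, (1 : ℝ) ∂(gam n) = 1 := by simp
  have hfst : ∀ f : E n → ℝ, ∫ w, f w.1 ∂(P n) = ∫ x, f x ∂(gam n) := by
    intro f
    have h1 := hmul f (fun _ => 1)
    rw [hone, mul_one] at h1
    rw [← h1]
    refine integral_congr_ae (Filter.Eventually.of_forall fun w => ?_)
    exact (mul_one _).symm
  have hsnd : ∀ g : ℝ → ℝ, ∫ w, g w.2 ∂(P n) = ∫ κ, g κ ∂nu := by
    intro g
    have h1 := hmul (fun _ => 1) g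
    rw [honeg, one_mul] at h1
    rw [← h1]
    refine integral_congr_ae (Filter.Eventually.of_forall fun w => ?_)
    exact (one_mul _).symm
  refine ⟨hprob, hint, ?_, ?_, ?_, ?_, ?_, ?_, ?_⟩
  · intro v
    rw [hfst (fun x => (inner ℝ x v : ℝ)), hg2 v]
  · rw [hsnd (fun κ => κ), hk1]
  · rw [hsnd (fun κ => κ ^ 2), hk2]
  · intro f
    have h1 := hmul f (fun κ => κ)
    rw [hk1, mul_zero] at h1
    rw [← h1]
    refine integral_congr_ae (Filter.Eventually.of_forall fun w => ?_)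
    exact mul_comm _ _
  · intro v v'
    rw [hfst (fun x => (inner ℝ x v : ℝ) * inner ℝ x v'), hg3 v v']
  · intro v v'
    have h1 := hmul (fun x => (inner ℝ x v : ℝ) * inner ℝ x v') (fun κ => κ ^ 2)
    rw [hk2, hg3 v v'] at h1
    have h2 : ∫ w, w.2 ^ 2 * ((inner ℝ w.1 v : ℝ) * inner ℝ w.1 v') ∂(P n) =
        ∫ w, ((inner ℝ w.1 v : ℝ) * inner ℝ w.1 v') * w.2 ^ 2 ∂(P n) := by
      refine integral_congr_ae (Filter.Eventually.of_forall fun w => ?_)
      exact mul_comm _ _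
    rw [h2, h1]
    ring
  · intro η
    have hexp : ∀ w : E n × ℝ, ‖xi η w‖ ^ 2 =
        ‖w.1‖ ^ 2 + (inner ℝ w.1 η : ℝ) * (2 * w.2) + w.2 ^ 2 * ‖η‖ ^ 2 := by
      intro w
      unfold xi
      rw [norm_add_sq_real, inner_smul_right, norm_smul, Real.norm_eq_abs, mul_pow, sq_abs]
      ring
    have hi1 : Integrable (fun w : E n × ℝ => ‖w.1‖ ^ 2) (P n) := by
      refine (hint 0 2 (by norm_num)).congr (Filter.Eventually.of_forall fun w => ?_)
      simp
    have hi2 : Integrable (fun w : E n × ℝ => (inner ℝ w.1 η : ℝ) * (2 * w.2)) (P n) := by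
      refine Integrable.mono' ((hint 1 1 (by norm_num)).const_mul (2 * ‖η‖))
        (Continuous.aestronglyMeasurable (by fun_prop)) (Filter.Eventually.of_forall fun w => ?_)
      rw [Real.norm_eq_abs, abs_mul, abs_mul]
      have h1 := abs_real_inner_le_norm w.1 η
      have h2 : |(2 : ℝ)| = 2 := by norm_num
      rw [h2, pow_one, pow_one]
      have h3 : 0 ≤ 2 * |w.2| := by positivity
      nlinarith [mul_le_mul_of_nonneg_right h1 h3]
    have hi3 : Integrable (fun w : E n × ℝ => w.2 ^ 2 * ‖η‖ ^ 2) (P n) := by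
      refine ((hint 2 0 (by norm_num)).mul_const (‖η‖ ^ 2)).congr
        (Filter.Eventually.of_forall fun w => ?_)
      simp
    have hi12 : Integrable (fun w : E n × ℝ => ‖w.1‖ ^ 2 + (inner ℝ w.1 η : ℝ) * (2 * w.2))
      (P n) := hi1.add hi2
    rw [integral_congr_ae (Filter.Eventually.of_forall hexp),
      integral_add hi12 hi3, integral_add hi1 hi2,
      hfst (fun x => ‖x‖ ^ 2), hg4, hmul (fun x => (inner ℝ x η : ℝ)) (fun κ => 2 * κ), hg2 η,
      zero_mul, integral_mul_const, hsnd (fun κ => κ ^ 2), hk2]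
    ring

end Pool.Agent.W52.FV.PM
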